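import Mathlib

/-!
# EJR committees on interval domains need not be connected

An explicit instance with 63 voters, 21 candidates and committee size 9, in the candidate interval
domain and in the voter interval domain at once, that has an isolated EJR committee: every
exchange of one candidate destroys extended justified representation, while other EJR
committees exist.
-/

namespace Pool.Agent.Results.MP_5ed545_co.EJRDisconnected

open Finset

variable {N C : Type} [Fintype N] [Fintype C] [DecidableEq C]

/-- The candidates approved by every voter of the group `S`. -/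
def common (A : N → Finset C) (S : Finset N) : Finset C :=
  univ.filter (fun c : C => ∀ v ∈ S, c ∈ A v)

/-- The group `S` is `l`-cohesive for committee size `k`: it has at least `l * n / k` voters, who
approve at least `l` candidates in common. -/
def Cohesive (A : N → Finset C) (k l : ℕ) (S : Finset N) : Prop :=
  (l : ℚ) * (Fintype.card N : ℚ) / (k : ℚ) ≤ (S.card : ℚ) ∧ l ≤ (common A S).card

/-- `W` is an EJR committee of size `k`: it has `k` elements and for every `l ≥ 1` every
`l`-cohesive group has a member who approves at least `l` members of `W`. -/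
def EJRCommittee (A : N → Finset C) (k : ℕ) (W : Finset C) : Prop :=
  W.card = k ∧ ∀ l : ℕ, 1 ≤ l → ∀ S : Finset N, Cohesive A k l S →
    ∃ v ∈ S, l ≤ (A v ∩ W).card

/-- Two EJR committees of size `k` that have exactly `k - 1` members in common. -/
def AdjacentEJR (A : N → Finset C) (k : ℕ) (W X : Finset C) : Prop :=
  EJRCommittee A k W ∧ EJRCommittee A k X ∧ (W ∩ X).card + 1 = k

/-- Joined by a path of adjacent EJR committees. -/
def Joined (A : N → Finset C) (k : ℕ) (W X : Finset C) : Prop :=
  Relation.ReflTransGen (AdjacentEJR A k) W X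

/-- Candidate interval domain: for some linear order of the candidates every ballot is a set of
consecutive candidates. -/
def CandidateInterval (A : N → Finset C) : Prop :=
  ∃ r : LinearOrder C, ∀ v : N, ∀ a ∈ A v, ∀ b ∈ A v, ∀ c : C, r.le a c → r.le c b → c ∈ A v

/-- Voter interval domain: for some linear order of the voters the supporters of every candidate
are consecutive. -/
def VoterInterval (A : N → Finset C) : Prop :=
  ∃ r : LinearOrder N, ∀ c : C, ∀ u : N, ∀ w : N, c ∈ A u → c ∈ A w →
    ∀ v : N, r.le u v → r.le v w → c ∈ A v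

omit [Fintype N] in
theorem mem_common {A : N → Finset C} {S : Finset N} {c : C} :
    c ∈ common A S ↔ ∀ v ∈ S, c ∈ A v := by
  simp [common]

/-! ### The instance -/

/-- ballots in the order of the voters: number of voters, first and last candidate -/
def types : List (ℕ × ℕ × ℕ) :=
  [(7, 0, 0), (1, 0, 3), (13, 1, 5), (1, 3, 6), (1, 4, 7), (1, 6, 9), (1, 7, 10), (13, 8, 12),
    (1, 10, 13), (1, 11, 14), (1, 13, 16), (1, 14, 17), (13, 15, 19), (1, 17, 20), (7, 20, 20)]

/-- the list of the 63 ballots -/
def ballots : List (ℕ × ℕ) := types.flatMap (fun t => List.replicate t.1 t.2)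

/-- first approved candidate -/
def lo (v : Fin 63) : ℕ := (ballots.getD v (0, 0)).1

/-- last approved candidate -/
def hi (v : Fin 63) : ℕ := (ballots.getD v (0, 0)).2

/-- the profile -/
def A (v : Fin 63) : Finset (Fin 21) := univ.filter (fun c : Fin 21 => lo v ≤ c ∧ (c : ℕ) ≤ hi v)

theorem mem_A {v : Fin 63} {c : Fin 21} : c ∈ A v ↔ lo v ≤ c ∧ (c : ℕ) ≤ hi v := by
  simp [A]

theorem lo_mono : ∀ u v : Fin 63, u ≤ v → lo u ≤ lo v := by decide +kernel

theorem hi_mono : ∀ u v : Fin 63, u ≤ v → hi u ≤ hi v := by decide +kernel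

theorem ci : CandidateInterval A := by
  refine ⟨inferInstance, ?_⟩
  intro v a ha b hb c hac hcb
  rw [mem_A] at *
  have h1 : (a : ℕ) ≤ c := hac
  have h2 : (c : ℕ) ≤ b := hcb
  omega

theorem vi : VoterInterval A := by
  refine ⟨inferInstance, ?_⟩
  intro c u w hu hw v huv hvw
  rw [mem_A] at *
  have h1 := lo_mono v w hvw
  have h2 := hi_mono u v huv
  omega

/-- number of members of a set (given by its indicator) between `a` and `b` -/
def cnt (p : Fin 21 → Bool) (a b : ℕ) : ℕ :=
  (univ.filter (fun c : Fin 21 => (decide (a ≤ c) && decide ((c : ℕ) ≤ b) && p c) = true)).card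

theorem card_inter (W : Finset (Fin 21)) (v : Fin 63) :
    (A v ∩ W).card = cnt (fun c => decide (c ∈ W)) (lo v) (hi v) := by
  unfold cnt
  congr 1
  ext c
  simp [A]

/-- the voters that approve all of `a, ..., a + l - 1` and fewer than `l` members -/
def bad (p : Fin 21 → Bool) (a l : ℕ) : Finset (Fin 63) :=
  univ.filter (fun v : Fin 63 =>
    (decide (lo v ≤ a) && decide (a + l ≤ hi v + 1) && decide (cnt p (lo v) (hi v) < l)) = true)

theorem mem_bad {p : Fin 21 → Bool} {a l : ℕ} {v : Fin 63} :
    v ∈ bad p a l ↔ lo v ≤ a ∧ a + l ≤ hi v + 1 ∧ cnt p (lo v) (hi v) < l := by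
  simp [bad, and_assoc]

theorem hi_lt : ∀ v : Fin 63, hi v < 21 := by decide +kernel

theorem bad_lt {X : Finset (Fin 21)} (h : EJRCommittee A 9 X) (a l : ℕ) (hl : 1 ≤ l) :
    (bad (fun c => decide (c ∈ X)) a l).card < 7 * l := by
  by_contra hc
  push Not at hc
  have hne : (bad (fun c => decide (c ∈ X)) a l).Nonempty := by
    rw [← Finset.card_pos]; omega
  obtain ⟨v0, hv0⟩ := hne
  have h0 := mem_bad.1 hv0
  have h1 := hi_lt v0
  have hal : a + l ≤ 21 := by omega
  obtain ⟨v, hv, hlv⟩ := h.2 l hl (bad (fun c => decide (c ∈ X)) a l) (by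
    constructor
    · have h2 : ((7 * l : ℕ) : ℚ) ≤ ((bad (fun c => decide (c ∈ X)) a l).card : ℚ) := by
        exact_mod_cast hc
      have h3 : (l : ℚ) * (Fintype.card (Fin 63) : ℚ) / ((9 : ℕ) : ℚ) = ((7 * l : ℕ) : ℚ) := by
        simp only [Fintype.card_fin]
        push_cast
        ring
      rw [h3]
      exact h2
    · have h4 : (Finset.range l).card ≤ (common A (bad (fun c => decide (c ∈ X)) a l)).card := by
        apply Finset.card_le_card_of_injOn
          (fun i => if hi : a + i < 21 then (⟨a + i, hi⟩ : Fin 21) else ⟨0, by norm_num⟩)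
        · intro i hi
          have hi' : i < l := Finset.mem_range.1 (by simpa using hi)
          have h5 : a + i < 21 := by omega
          simp only [h5, dif_pos]
          refine Finset.mem_coe.2 (mem_common.2 ?_)
          intro v hv
          have h6 := mem_bad.1 hv
          rw [mem_A]
          simp only
          omega
        · intro i hi j hj hij
          have hi' : i < l := Finset.mem_range.1 (by simpa using hi)
          have hj' : j < l := Finset.mem_range.1 (by simpa using hj)
          have h5 : a + i < 21 := by omega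
          have h6 : a + j < 21 := by omega
          simp only [h5, h6, dif_pos, Fin.mk.injEq] at hij
          omega
      simpa using h4)
  have h7 := mem_bad.1 hv
  rw [card_inter] at hlv
  omega

theorem ejr_of_bad {W : Finset (Fin 21)} (hW : W.card = 9)
    (h : ∀ a : Fin 21, ∀ l : Fin 22, 1 ≤ (l : ℕ) →
      (bad (fun c => decide (c ∈ W)) a l).card < 7 * (l : ℕ)) : EJRCommittee A 9 W := by
  refine ⟨hW, ?_⟩
  intro l hl S hS
  by_contra hc
  push Not at hc
  obtain ⟨h1, h2⟩ := hS
  set T := common A S with hT
  have hne : T.Nonempty := by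
    rw [← Finset.card_pos]; omega
  have hmem : ∀ c ∈ T, ∀ v ∈ S, c ∈ A v := by
    intro c hcT
    exact mem_common.1 hcT
  have ha := T.min'_mem hne
  have hb := T.max'_mem hne
  have hsub : T ⊆ Finset.Icc (T.min' hne) (T.max' hne) := by
    intro c hcT
    rw [Finset.mem_Icc]
    exact ⟨T.min'_le c hcT, T.le_max' c hcT⟩
  have h3 := Finset.card_le_card hsub
  rw [Fin.card_Icc] at h3
  have hlt : ((T.max' hne : Fin 21) : ℕ) < 21 := (T.max' hne).isLt
  have h4 : ((T.min' hne : Fin 21) : ℕ) + l ≤ (T.max' hne : Fin 21) + 1 := by omega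
  have hl22 : l < 22 := by omega
  have h5 := h (T.min' hne) ⟨l, hl22⟩ hl
  have h6 : S ⊆ bad (fun c => decide (c ∈ W)) (T.min' hne) l := by
    intro v hv
    rw [mem_bad]
    have h7 := mem_A.1 (hmem _ ha v hv)
    have h8 := mem_A.1 (hmem _ hb v hv)
    have h9 := hc v hv
    rw [card_inter] at h9
    exact ⟨h7.1, by omega, h9⟩
  have h10 := Finset.card_le_card h6
  have h11 : (l : ℚ) * (Fintype.card (Fin 63) : ℚ) / ((9 : ℕ) : ℚ) = ((7 * l : ℕ) : ℚ) := by
    simp only [Fintype.card_fin]
    push_cast
    ring
  rw [h11] at h1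
  have h12 : 7 * l ≤ S.card := by exact_mod_cast h1
  simp only at h5
  omega

/-- the isolated committee -/
def W0 : Finset (Fin 21) := {0, 3, 6, 7, 10, 13, 14, 17, 20}

/-- another committee -/
def W1 : Finset (Fin 21) := {0, 1, 2, 7, 8, 9, 15, 16, 20}

theorem ejr_W0 : EJRCommittee A 9 W0 := by
  apply ejr_of_bad (by decide)
  decide +kernel

theorem ejr_W1 : EJRCommittee A 9 W1 := by
  apply ejr_of_bad (by decide)
  decide +kernel

/-- the windows that carry the violations: first candidate and length -/
def windows : List (ℕ × ℕ) :=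
  [(0, 1), (1, 2), (2, 1), (4, 2), (8, 2), (9, 1), (11, 2), (15, 2), (16, 1), (18, 2), (20, 1)]

theorem blocked : ∀ w c : Fin 21, w ∈ W0 → c ∉ W0 →
    ∃ x ∈ windows, 1 ≤ x.2 ∧
      7 * x.2 ≤ (bad (fun d => decide (d ∈ insert c (W0.erase w))) x.1 x.2).card := by
  decide +kernel

theorem card_W0 : W0.card = 9 := by decide

theorem exchange {X : Finset (Fin 21)} (hX : X.card = 9) (h : (W0 ∩ X).card + 1 = 9) :
    ∃ w c : Fin 21, w ∈ W0 ∧ c ∉ W0 ∧ X = insert c (W0.erase w) := by
  have h1 : (W0 \ X).card = 1 := by
    have := Finset.card_sdiff_add_card_inter W0 X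
    rw [card_W0] at this
    omega
  have h2 : (X \ W0).card = 1 := by
    have := Finset.card_sdiff_add_card_inter X W0
    rw [Finset.inter_comm, hX] at this
    omega
  obtain ⟨w, hw⟩ := Finset.card_eq_one.1 h1
  obtain ⟨c, hc⟩ := Finset.card_eq_one.1 h2
  have hw' : w ∈ W0 \ X := by rw [hw]; exact Finset.mem_singleton_self w
  have hc' : c ∈ X \ W0 := by rw [hc]; exact Finset.mem_singleton_self c
  rw [Finset.mem_sdiff] at hw' hc'
  refine ⟨w, c, hw'.1, hc'.2, ?_⟩
  ext d
  rw [Finset.mem_insert, Finset.mem_erase]
  constructor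
  · intro hd
    by_cases hd0 : d ∈ W0
    · right
      refine ⟨?_, hd0⟩
      rintro rfl
      exact hw'.2 hd
    · left
      have : d ∈ X \ W0 := Finset.mem_sdiff.2 ⟨hd, hd0⟩
      rw [hc] at this
      exact Finset.mem_singleton.1 this
  · rintro (rfl | ⟨hdw, hd0⟩)
    · exact hc'.1
    · by_contra hdX
      have : d ∈ W0 \ X := Finset.mem_sdiff.2 ⟨hd0, hdX⟩
      rw [hw] at this
      exact hdw (Finset.mem_singleton.1 this)

theorem isolated (X : Finset (Fin 21)) (hX : EJRCommittee A 9 X) : (W0 ∩ X).card + 1 ≠ 9 := by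
  intro h
  obtain ⟨w, c, hw, hc, rfl⟩ := exchange hX.1 h
  obtain ⟨x, -, hx1, hx2⟩ := blocked w c hw hc
  have := bad_lt hX x.1 x.2 hx1
  omega

/-- **The set of EJR committees of an instance in the candidate interval domain and in the voter
interval domain need not be connected.** There is an instance with 63 voters, 21 candidates and
committee size 9 that lies in both domains and has two EJR committees `W` and `W'` that are not
joined by any path of EJR committees; moreover no EJR committee at all is adjacent to `W`. -/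
theorem result : ∃ A : Fin 63 → Finset (Fin 21), CandidateInterval A ∧ VoterInterval A ∧
    ∃ W W' : Finset (Fin 21), EJRCommittee A 9 W ∧ EJRCommittee A 9 W' ∧ ¬ Joined A 9 W W' ∧
      ∀ X : Finset (Fin 21), ¬ AdjacentEJR A 9 W X := by
  refine ⟨A, ci, vi, W0, W1, ejr_W0, ejr_W1, ?_, ?_⟩
  · intro h
    rcases Relation.ReflTransGen.cases_head h with h | ⟨X, h, -⟩
    · exact absurd h (by decide)
    · exact isolated X h.2.1 h.2.2
  · intro X h
    exact isolated X h.2.1 h.2.2

end Pool.Agent.Results.MP_5ed545_co.EJRDisconnected
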